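import Mathlib

set_option autoImplicit false

namespace Pool.Agent.Results.MP_c6effb_co.DegenerateSharp

open Finset Classical

/-- `G` embeds in the complement of `H` -/
def Emb {k : ℕ} {V : Type} (G : SimpleGraph (Fin k)) (H : SimpleGraph V) : Prop :=
  ∃ f : Fin k → V, Function.Injective f ∧ ∀ i j, G.Adj i j → ¬ H.Adj (f i) (f j)

/-- every vertex has at most `d` smaller neighbours -/
def Deg {k : ℕ} (G : SimpleGraph (Fin k)) (d : ℕ) : Prop :=
  ∀ i, (univ.filter fun j => G.Adj i j ∧ j < i).card ≤ d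

theorem greedy {V : Type} [Fintype V] (k d D : ℕ) (G : SimpleGraph (Fin k)) (hG : Deg G d)
    (H : SimpleGraph V) (hD : ∀ v, (univ.filter fun w => H.Adj v w).card ≤ D)
    (hN : k + d * D ≤ Fintype.card V) : Emb G H := by
  have key : ∀ n : ℕ, n ≤ k → ∃ f : Fin k → V,
      (∀ i j : Fin k, i.val < n → j.val < n → f i = f j → i = j) ∧
      ∀ i j : Fin k, i.val < n → j.val < n → G.Adj i j → ¬ H.Adj (f i) (f j) := by
    intro n
    induction n with
    | zero =>
      intro _
      by_cases hk : k = 0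
      · subst hk
        exact ⟨fun i => i.elim0, fun i => i.elim0, fun i => i.elim0⟩
      · have h1 : 0 < Fintype.card V := by omega
        obtain ⟨v⟩ := Fintype.card_pos_iff.1 h1
        exact ⟨fun _ => v, fun i j hi => absurd hi (Nat.not_lt_zero _),
          fun i j hi => absurd hi (Nat.not_lt_zero _)⟩
    | succ n ih =>
      intro hn
      obtain ⟨f, hinj, hadj⟩ := ih (by omega)
      obtain ⟨i, hi⟩ : ∃ i : Fin k, i.val = n := ⟨⟨n, hn⟩, rfl⟩
      obtain ⟨Bad, hBaddef⟩ : ∃ Bad : Finset V, Bad =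
          (univ.filter (fun j : Fin k => j.val < n)).image f ∪
          (univ.filter (fun j => G.Adj i j ∧ j < i)).biUnion
            (fun j => univ.filter (fun w => H.Adj (f j) w)) := ⟨_, rfl⟩
      have hBad : Bad.card < Fintype.card V := by
        have h0 : (univ.filter (fun j : Fin k => j.val < n)).card ≤ n := by
          have h00 : ((univ.filter (fun j : Fin k => j.val < n)).image (fun j : Fin k => j.val)).card
              ≤ (range n).card := by
            apply card_le_card
            intro a ha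
            rw [mem_image] at ha
            obtain ⟨j, hj, rfl⟩ := ha
            rw [mem_filter] at hj
            exact mem_range.2 hj.2
          rw [card_image_of_injective _ Fin.val_injective, card_range] at h00
          exact h00
        have h1 : ((univ.filter (fun j : Fin k => j.val < n)).image f).card ≤ n :=
          card_image_le.trans h0
        have h2 : ((univ.filter (fun j => G.Adj i j ∧ j < i)).biUnion
            (fun j => univ.filter (fun w => H.Adj (f j) w))).card ≤ d * D := by
          refine (card_biUnion_le_card_mul _ _ D (fun j _ => hD (f j))).trans ?_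
          exact Nat.mul_le_mul_right D (hG i)
        have h3 : Bad.card ≤ n + d * D := by
          rw [hBaddef]
          exact (card_union_le _ _).trans (Nat.add_le_add h1 h2)
        omega
      obtain ⟨v, hv⟩ : ∃ v, v ∉ Bad := by
        by_contra hc
        push Not at hc
        have h1 : Bad = univ := eq_univ_iff_forall.2 hc
        rw [h1, card_univ] at hBad
        exact lt_irrefl _ hBad
      have hv1 : ∀ j : Fin k, j.val < n → f j ≠ v := by
        intro j hj he
        apply hv
        rw [hBaddef, mem_union]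
        left
        rw [mem_image]
        exact ⟨j, mem_filter.2 ⟨mem_univ _, hj⟩, he⟩
      have hv2 : ∀ j : Fin k, j.val < n → G.Adj i j → ¬ H.Adj (f j) v := by
        intro j hj hg hh
        apply hv
        rw [hBaddef, mem_union]
        right
        rw [mem_biUnion]
        refine ⟨j, mem_filter.2 ⟨mem_univ _, hg, ?_⟩, mem_filter.2 ⟨mem_univ _, hh⟩⟩
        rw [Fin.lt_def, hi]
        exact hj
      have hne : ∀ j : Fin k, j.val < n → Function.update f i v j = f j := by
        intro j hj
        apply Function.update_of_ne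
        rintro rfl
        omega
      have hii : Function.update f i v i = v := Function.update_self i v f
      have hcase : ∀ j : Fin k, j.val < n + 1 → j.val < n ∨ j = i := by
        intro j hj
        rcases Nat.lt_succ_iff_lt_or_eq.1 hj with h | h
        · exact Or.inl h
        · right
          apply Fin.ext
          rw [hi]
          exact h
      refine ⟨Function.update f i v, ?_, ?_⟩
      · intro a b ha hb hab
        rcases hcase a ha with ha' | ha' <;> rcases hcase b hb with hb' | hb'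
        · rw [hne a ha', hne b hb'] at hab
          exact hinj a b ha' hb' hab
        · rw [hne a ha', hb', hii] at hab
          exact absurd hab (hv1 a ha')
        · rw [hne b hb', ha', hii] at hab
          exact absurd hab.symm (hv1 b hb')
        · rw [ha', hb']
      · intro a b ha hb hab
        rcases hcase a ha with ha' | ha' <;> rcases hcase b hb with hb' | hb'
        · rw [hne a ha', hne b hb']
          exact hadj a b ha' hb' hab
        · rw [hne a ha', hb', hii]
          rw [hb'] at hab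
          exact hv2 a ha' hab.symm
        · rw [hne b hb', ha', hii]
          rw [ha'] at hab
          intro hh
          exact hv2 b hb' hab hh.symm
        · rw [ha', hb'] at hab
          exact absurd hab (G.loopless.irrefl i)
  obtain ⟨f, hinj, hadj⟩ := key k le_rfl
  exact ⟨f, fun a b h => hinj a b a.2 b.2 h, fun i j h => hadj i j i.2 j.2 h⟩

theorem low (k d s : ℕ) (G : SimpleGraph (Fin k)) (hG : Deg G d)
    (hs : s * ((2 * d + 1) * (2 * d + 1)) ≤ k) :
    ∃ T : Finset (Fin k), T.card = s ∧ (∀ a ∈ T, ∀ b ∈ T, ¬ G.Adj a b) ∧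
      ∀ a ∈ T, (univ.filter fun j => G.Adj a j).card ≤ 2 * d := by
  have hsplit : ∀ i : Fin k, (univ.filter fun j => G.Adj i j).card =
      (univ.filter fun j => G.Adj i j ∧ j < i).card +
      (univ.filter fun j => G.Adj i j ∧ i < j).card := by
    intro i
    rw [← card_union_of_disjoint]
    · congr 1
      ext j
      simp only [mem_filter, mem_univ, true_and, mem_union]
      constructor
      · intro h
        rcases lt_trichotomy j i with h1 | h1 | h1
        · exact Or.inl ⟨h, h1⟩
        · subst h1; exact absurd h (G.irrefl)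
        · exact Or.inr ⟨h, h1⟩
      · rintro (h | h)
        · exact h.1
        · exact h.1
    · rw [disjoint_left]
      intro j h1 h2
      simp only [mem_filter, mem_univ, true_and] at h1 h2
      exact absurd h1.2 (not_lt.2 h2.2.le)
  have hsym : ∑ i : Fin k, (univ.filter fun j => G.Adj i j ∧ i < j).card =
      ∑ i : Fin k, (univ.filter fun j => G.Adj i j ∧ j < i).card := by
    simp only [card_filter]
    rw [sum_comm]
    refine sum_congr rfl fun i _ => sum_congr rfl fun j _ => ?_
    rw [G.adj_comm]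
  have hsum : ∑ i : Fin k, (univ.filter fun j => G.Adj i j).card ≤ 2 * d * k := by
    have h1 : ∑ i : Fin k, (univ.filter fun j => G.Adj i j ∧ j < i).card ≤ ∑ _i : Fin k, d :=
      sum_le_sum fun i _ => hG i
    simp only [sum_const, card_univ, Fintype.card_fin, smul_eq_mul] at h1
    rw [sum_congr rfl (fun i _ => hsplit i), sum_add_distrib, hsym]
    nlinarith
  obtain ⟨L, hL⟩ : ∃ L : Finset (Fin k), L = univ.filter fun i =>
    (univ.filter fun j => G.Adj i j).card ≤ 2 * d := ⟨_, rfl⟩
  have hcompl : (2 * d + 1) * (k - L.card) ≤ ∑ i : Fin k, (univ.filter fun j => G.Adj i j).card := by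
    have hc : (univ \ L).card = k - L.card := by
      rw [card_sdiff_of_subset (subset_univ _)]
      simp
    calc (2 * d + 1) * (k - L.card) = ∑ _i ∈ univ \ L, (2 * d + 1) := by
          rw [sum_const, hc, smul_eq_mul, mul_comm]
      _ ≤ ∑ i ∈ univ \ L, (univ.filter fun j => G.Adj i j).card := by
          apply sum_le_sum
          intro i hi
          rw [hL] at hi
          simp only [mem_sdiff, mem_univ, true_and, mem_filter, not_le] at hi
          exact hi
      _ ≤ _ := sum_le_sum_of_subset (subset_univ _)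
  have hLk : L.card ≤ k := by
    have := card_le_univ L
    simpa using this
  have hLc : s * (2 * d + 1) ≤ L.card := by
    obtain ⟨m, hm⟩ : ∃ m, k = L.card + m := ⟨k - L.card, by omega⟩
    have h1 : k - L.card = m := by omega
    rw [h1] at hcompl
    have h2 : (2 * d + 1) * m ≤ 2 * d * k := hcompl.trans hsum
    have h3 : k ≤ (2 * d + 1) * L.card := by nlinarith
    have h4 : s * (2 * d + 1) * (2 * d + 1) ≤ L.card * (2 * d + 1) := by nlinarith
    exact Nat.le_of_mul_le_mul_right h4 (by omega)
  have hind : ∀ j ≤ s, ∃ T ⊆ L, T.card = j ∧ (∀ a ∈ T, ∀ b ∈ T, ¬ G.Adj a b) := by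
    intro j
    induction j with
    | zero => intro _; exact ⟨∅, by simp, by simp, by simp⟩
    | succ j ih =>
      intro hj
      obtain ⟨T, hTL, hTc, hTi⟩ := ih (by omega)
      have hbi : (T.biUnion fun a => univ.filter fun j => G.Adj a j).card ≤ T.card * (2 * d) := by
        apply card_biUnion_le_card_mul
        intro a ha
        have := hTL ha
        rw [hL] at this
        simpa using this
      have hun : (T ∪ T.biUnion fun a => univ.filter fun j => G.Adj a j).card < L.card := by
        calc _ ≤ T.card + (T.biUnion fun a => univ.filter fun j => G.Adj a j).card := card_union_le _ _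
          _ ≤ T.card + T.card * (2 * d) := by omega
          _ < s * (2 * d + 1) := by rw [hTc]; nlinarith
          _ ≤ L.card := hLc
      obtain ⟨x, hxL, hx⟩ := exists_mem_notMem_of_card_lt_card hun
      simp only [mem_union, mem_biUnion, mem_filter, mem_univ, true_and, not_or, not_exists,
        not_and] at hx
      refine ⟨insert x T, ?_, ?_, ?_⟩
      · intro y hy
        rcases mem_insert.1 hy with rfl | hy
        · exact hxL
        · exact hTL hy
      · rw [card_insert_of_notMem hx.1, hTc]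
      · intro a ha b hb
        rcases mem_insert.1 ha with ha' | ha'
        · rcases mem_insert.1 hb with hb' | hb'
          · rw [ha', hb']; exact G.irrefl
          · rw [ha']; intro h; exact hx.2 b hb' h.symm
        · rcases mem_insert.1 hb with hb' | hb'
          · rw [hb']; exact hx.2 a ha'
          · exact hTi a ha' b hb'
  obtain ⟨T, hTL, hTc, hTi⟩ := hind s le_rfl
  refine ⟨T, hTc, hTi, fun a ha => ?_⟩
  have := hTL ha
  rw [hL] at this
  simpa using this


theorem rand_a {ι V : Type} [Fintype ι] (m M : ℕ) (D : Finset ι) (hD : D.card ≤ m) (A S : Finset V)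
    (hS : S ⊆ A) (hA0 : A.Nonempty) (hc : A.card ^ m ≤ M * S.card ^ m) :
    (Fintype.piFinset (fun _ : ι => A)).card ≤
      M * ((Fintype.piFinset (fun _ : ι => A)).filter fun g => ∀ p ∈ D, g p ∈ S).card := by
  have h1 : ((Fintype.piFinset (fun _ : ι => A)).filter fun g => ∀ p ∈ D, g p ∈ S) =
      Fintype.piFinset (fun p : ι => if p ∈ D then S else A) := by
    ext g
    rw [Finset.mem_filter, Fintype.mem_piFinset, Fintype.mem_piFinset]
    constructor
    · rintro ⟨ha, hb⟩ p
      by_cases hp : p ∈ D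
      · rw [if_pos hp]
        exact hb p hp
      · rw [if_neg hp]
        exact ha p
    · intro h
      refine ⟨fun p => ?_, fun p hp => ?_⟩
      · have h2 := h p
        by_cases hp : p ∈ D
        · rw [if_pos hp] at h2
          exact hS h2
        · rw [if_neg hp] at h2
          exact h2
      · have h2 := h p
        rw [if_pos hp] at h2
        exact h2
  rw [h1, Fintype.card_piFinset, Fintype.card_piFinset]
  have hn : 0 < A.card := Finset.card_pos.mpr hA0
  have hle : S.card ≤ A.card := Finset.card_le_card hS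
  have key : A.card ^ D.card ≤ M * S.card ^ D.card := by
    obtain ⟨j, hj⟩ : ∃ j, m = D.card + j := ⟨m - D.card, by omega⟩
    have h5 : A.card ^ D.card * A.card ^ j ≤ M * S.card ^ D.card * A.card ^ j := by
      calc A.card ^ D.card * A.card ^ j = A.card ^ m := by rw [hj, pow_add]
        _ ≤ M * S.card ^ m := hc
        _ = M * S.card ^ D.card * S.card ^ j := by rw [hj, pow_add]; ring
        _ ≤ M * S.card ^ D.card * A.card ^ j :=
            Nat.mul_le_mul_left _ (Nat.pow_le_pow_left hle j)
    exact Nat.le_of_mul_le_mul_right h5 (by positivity)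
  have h6 : ∀ c : ℕ, ∏ p : ι, (if p ∈ D then c else A.card) =
      c ^ D.card * A.card ^ (univ.filter fun p => ¬ p ∈ D).card := by
    intro c
    rw [Finset.prod_ite, Finset.prod_const, Finset.prod_const]
    congr 2
    congr 1
    ext p
    simp
  have h7 : ∏ p : ι, (if p ∈ D then S else A).card =
      S.card ^ D.card * A.card ^ (univ.filter fun p => ¬ p ∈ D).card := by
    rw [← h6]
    exact Finset.prod_congr rfl fun p _ => by split_ifs <;> rfl
  have h8 : ∏ _p : ι, A.card = A.card ^ D.card * A.card ^ (univ.filter fun p => ¬ p ∈ D).card := by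
    rw [← h6]
    exact Finset.prod_congr rfl fun p _ => by split_ifs <;> rfl
  rw [h7, h8, ← mul_assoc]
  exact Nat.mul_le_mul_right _ key

theorem rand_b {ι V : Type} [Fintype ι] (A : Finset V) (p q : ι) (hpq : p ≠ q) :
    ((Fintype.piFinset (fun _ : ι => A)).filter fun g => g p = g q).card * A.card ≤
      (Fintype.piFinset (fun _ : ι => A)).card := by
  rw [← Finset.card_product]
  refine Finset.card_le_card_of_injOn
    (fun x : (ι → V) × V => Function.update x.1 p x.2) ?_ ?_
  · rintro ⟨g, a⟩ hx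
    rw [Finset.mem_coe, Finset.mem_product, Finset.mem_filter, Fintype.mem_piFinset] at hx
    obtain ⟨⟨hg, _⟩, ha⟩ := hx
    rw [Finset.mem_coe, Fintype.mem_piFinset]
    intro i
    by_cases h : i = p
    · subst h
      simpa using ha
    · simpa [Function.update_of_ne h] using hg i
  · rintro ⟨g, a⟩ hx ⟨g', a'⟩ hx' h
    rw [Finset.mem_coe, Finset.mem_product, Finset.mem_filter, Fintype.mem_piFinset] at hx hx'
    obtain ⟨⟨_, h4⟩, _⟩ := hx
    obtain ⟨⟨_, h5⟩, _⟩ := hx'
    simp only at h4 h5 h
    have h1 : a = a' := by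
      have := congrFun h p
      simpa using this
    have h2 : ∀ i, i ≠ p → g i = g' i := fun i hi => by
      have := congrFun h i
      simpa [hi] using this
    have h3 : g p = g' p := by rw [h4, h5, h2 q hpq.symm]
    have h6 : g = g' := by
      funext i
      by_cases hi : i = p
      · rw [hi, h3]
      · exact h2 i hi
    rw [h1, h6]

theorem rand {ι V : Type} [Fintype ι] [Fintype V] (T : Finset ι) (D : ι → Finset ι) (m M : ℕ) (hM : 1 ≤ M)
    (hD : ∀ u ∈ T, (D u).card ≤ m) (A B : Finset V) (S : V → Finset V)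
    (hS : ∀ b ∈ B, S b ⊆ A ∧ A.card ^ m ≤ M * (S b).card ^ m) (r : ℕ) (hr : 1 ≤ r) (hA0 : A.Nonempty)
    (hT : T.card = 4 * M * r) (hB : 2 * M * r ≤ B.card)
    (hA : 16 * m * m * M * M * r ≤ A.card) :
    ∃ g : ι → V, ∃ U : Finset ι, U ⊆ T ∧ U.card = r ∧ (∀ u ∈ U, ∀ p ∈ D u, g p ∈ A) ∧
      Set.InjOn g {p | ∃ u ∈ U, p ∈ D u} ∧
      ∀ u ∈ U, r ≤ (B.filter fun b => ∀ p ∈ D u, g p ∈ S b).card := by
  obtain ⟨Ω, hΩ⟩ : ∃ Ω : Finset (ι → V), Ω = Fintype.piFinset (fun _ : ι => A) := ⟨_, rfl⟩
  have hΩne : Ω.Nonempty := by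
    rw [hΩ]
    exact Fintype.piFinset_nonempty.2 fun _ => hA0
  have hΩmem : ∀ g ∈ Ω, ∀ p, g p ∈ A := by
    intro g hg p
    rw [hΩ] at hg
    exact Fintype.mem_piFinset.1 hg p
  have h4 : 0 < M := hM
  have hK : 0 < B.card := by
    refine lt_of_lt_of_le ?_ hB
    positivity
  obtain ⟨X, hX⟩ : ∃ X : ι → (ι → V) → ℕ, ∀ u g,
      X u g = (B.filter fun b => ∀ p ∈ D u, g p ∈ S b).card :=
    ⟨fun u g => (B.filter fun b => ∀ p ∈ D u, g p ∈ S b).card, fun _ _ => rfl⟩
  have hXle : ∀ u g, X u g ≤ B.card := fun u g => by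
    rw [hX]
    exact Finset.card_filter_le _ _
  -- (1) good
  have h1 : ∀ u ∈ T, Ω.card ≤ 2 * M * (Ω.filter fun g => r ≤ X u g).card := by
    intro u hu
    have e1 : ∑ g ∈ Ω, X u g = ∑ b ∈ B, (Ω.filter fun g => ∀ p ∈ D u, g p ∈ S b).card := by
      rw [Finset.sum_congr rfl fun g _ => hX u g]
      simp only [Finset.card_filter]
      exact Finset.sum_comm
    have e2 : B.card * Ω.card ≤ M * ∑ g ∈ Ω, X u g := by
      have e21 : B.card * Ω.card = ∑ _b ∈ B, Ω.card := by rw [Finset.sum_const, smul_eq_mul]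
      rw [e1, Finset.mul_sum, e21]
      refine Finset.sum_le_sum fun b hb => ?_
      rw [hΩ]
      exact rand_a m M (D u) (hD u hu) A (S b) (hS b hb).1 hA0 (hS b hb).2
    have e3 : ∑ g ∈ Ω, X u g ≤
        B.card * (Ω.filter fun g => r ≤ X u g).card + r * Ω.card := by
      have e31 : ∀ g ∈ Ω, X u g ≤ (if r ≤ X u g then B.card else 0) + r := by
        intro g _
        split_ifs with h
        · exact (hXle u g).trans (Nat.le_add_right _ _)
        · omega
      refine (Finset.sum_le_sum e31).trans (le_of_eq ?_)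
      rw [Finset.sum_add_distrib, ← Finset.sum_filter, Finset.sum_const, Finset.sum_const,
        smul_eq_mul, smul_eq_mul]
      ring
    have e4 : 2 * M * r * Ω.card ≤ B.card * Ω.card := Nat.mul_le_mul_right _ hB
    have e6 := Nat.mul_le_mul_left (M) e3
    have e5 : B.card * Ω.card ≤ B.card * (2 * M * (Ω.filter fun g => r ≤ X u g).card) := by
      linarith
    exact Nat.le_of_mul_le_mul_left e5 hK
  -- (2) collisions
  obtain ⟨P, hP⟩ : ∃ P : Finset ι, P = T.biUnion D := ⟨_, rfl⟩
  have hPcard : P.card ≤ T.card * m := by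
    rw [hP]
    exact Finset.card_biUnion_le_card_mul T D m hD
  obtain ⟨coll, hcoll⟩ : ∃ coll : ι → (ι → V) → Prop, ∀ u g,
      coll u g ↔ ∃ p ∈ D u, ∃ q ∈ P, p ≠ q ∧ g p = g q :=
    ⟨fun u g => ∃ p ∈ D u, ∃ q ∈ P, p ≠ q ∧ g p = g q, fun _ _ => Iff.rfl⟩
  have h2 : ∀ u ∈ T, 4 * M * (Ω.filter fun g => coll u g).card ≤ Ω.card := by
    intro u hu
    rcases Nat.eq_zero_or_pos m with hm | hm
    · have hDu : D u = ∅ := by
        rw [← Finset.card_eq_zero]
        have := hD u hu
        omega
      have h0 : (Ω.filter fun g => coll u g) = ∅ := by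
        rw [Finset.filter_eq_empty_iff]
        intro g _ hg
        obtain ⟨p, hp, _⟩ := (hcoll u g).1 hg
        rw [hDu] at hp
        exact absurd hp (Finset.notMem_empty p)
      rw [h0, Finset.card_empty, mul_zero]
      exact Nat.zero_le _
    · have c1 : (Ω.filter fun g => coll u g) ⊆
          ((D u ×ˢ P).filter fun pq => pq.1 ≠ pq.2).biUnion
            fun pq => Ω.filter fun g => g pq.1 = g pq.2 := by
        intro g hg
        rw [Finset.mem_filter] at hg
        obtain ⟨p, hp, q, hq, hpq, hgpq⟩ := (hcoll u g).1 hg.2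
        rw [Finset.mem_biUnion]
        exact ⟨(p, q), Finset.mem_filter.2 ⟨Finset.mem_product.2 ⟨hp, hq⟩, hpq⟩,
          Finset.mem_filter.2 ⟨hg.1, hgpq⟩⟩
      have c2 : (Ω.filter fun g => coll u g).card * A.card ≤ (m * (T.card * m)) * Ω.card := by
        have c21 : (Ω.filter fun g => coll u g).card ≤
            ∑ pq ∈ (D u ×ˢ P).filter fun pq => pq.1 ≠ pq.2,
              (Ω.filter fun g => g pq.1 = g pq.2).card :=
          (Finset.card_le_card c1).trans Finset.card_biUnion_le
        have c22 : ∀ pq ∈ (D u ×ˢ P).filter fun pq => pq.1 ≠ pq.2,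
            (Ω.filter fun g => g pq.1 = g pq.2).card * A.card ≤ Ω.card := by
          intro pq hpq
          rw [hΩ]
          exact rand_b A pq.1 pq.2 (Finset.mem_filter.1 hpq).2
        have c23 : ((D u ×ˢ P).filter fun pq => pq.1 ≠ pq.2).card ≤ m * (T.card * m) := by
          refine (Finset.card_filter_le _ _).trans ?_
          rw [Finset.card_product]
          exact Nat.mul_le_mul (hD u hu) hPcard
        calc (Ω.filter fun g => coll u g).card * A.card
            ≤ (∑ pq ∈ (D u ×ˢ P).filter fun pq => pq.1 ≠ pq.2,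
              (Ω.filter fun g => g pq.1 = g pq.2).card) * A.card := Nat.mul_le_mul_right _ c21
          _ = ∑ pq ∈ (D u ×ˢ P).filter fun pq => pq.1 ≠ pq.2,
              (Ω.filter fun g => g pq.1 = g pq.2).card * A.card := Finset.sum_mul _ _ _
          _ ≤ ∑ _pq ∈ (D u ×ˢ P).filter fun pq => pq.1 ≠ pq.2, Ω.card :=
              Finset.sum_le_sum c22
          _ = ((D u ×ˢ P).filter fun pq => pq.1 ≠ pq.2).card * Ω.card := by
              rw [Finset.sum_const, smul_eq_mul]
          _ ≤ (m * (T.card * m)) * Ω.card := Nat.mul_le_mul_right _ c23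
      have c3 := Nat.mul_le_mul_left (Ω.filter fun g => coll u g).card hA
      rw [hT] at c2
      have c4 : (4 * m * m * M * r) * (4 * M * (Ω.filter fun g => coll u g).card) ≤
          (4 * m * m * M * r) * Ω.card := by
        have c41 : (4 * m * m * M * r) * (4 * M * (Ω.filter fun g => coll u g).card) =
            (Ω.filter fun g => coll u g).card * (16 * m * m * M * M * r) := by ring
        have c42 : (4 * m * m * M * r) * Ω.card = m * (4 * M * r * m) * Ω.card := by ring
        rw [c41, c42]
        exact c3.trans c2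
      exact Nat.le_of_mul_le_mul_left c4 (by positivity)
  -- (3) good and no collision
  have h3 : ∀ u ∈ T, Ω.card ≤
      4 * M * (Ω.filter fun g => r ≤ X u g ∧ ¬ coll u g).card := by
    intro u hu
    have d1 : (Ω.filter fun g => r ≤ X u g).card ≤
        (Ω.filter fun g => r ≤ X u g ∧ ¬ coll u g).card + (Ω.filter fun g => coll u g).card := by
      refine (Finset.card_le_card ?_).trans (Finset.card_union_le _ _)
      intro g hg
      rw [Finset.mem_filter] at hg
      rw [Finset.mem_union, Finset.mem_filter, Finset.mem_filter]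
      by_cases hc : coll u g
      · exact Or.inr ⟨hg.1, hc⟩
      · exact Or.inl ⟨hg.1, hg.2, hc⟩
    have d2 := h1 u hu
    have d3 := h2 u hu
    have d4 := Nat.mul_le_mul_left (4 * M) d1
    linarith
  -- (4) averaging
  have hswap : ∑ u ∈ T, (Ω.filter fun g => r ≤ X u g ∧ ¬ coll u g).card =
      ∑ g ∈ Ω, (T.filter fun u => r ≤ X u g ∧ ¬ coll u g).card := by
    simp only [Finset.card_filter]
    exact Finset.sum_comm
  have s1 : ∑ _g ∈ Ω, r ≤ ∑ g ∈ Ω, (T.filter fun u => r ≤ X u g ∧ ¬ coll u g).card := by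
    rw [← hswap, Finset.sum_const, smul_eq_mul]
    have s2 : T.card * Ω.card ≤
        4 * M * ∑ u ∈ T, (Ω.filter fun g => r ≤ X u g ∧ ¬ coll u g).card := by
      have s21 : T.card * Ω.card = ∑ _u ∈ T, Ω.card := by rw [Finset.sum_const, smul_eq_mul]
      rw [Finset.mul_sum, s21]
      exact Finset.sum_le_sum h3
    rw [hT] at s2
    have s3 : 4 * M * (Ω.card * r) ≤
        4 * M * ∑ u ∈ T, (Ω.filter fun g => r ≤ X u g ∧ ¬ coll u g).card := by
      refine le_trans (le_of_eq ?_) s2
      ring
    exact Nat.le_of_mul_le_mul_left s3 (by positivity)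
  obtain ⟨g, hg, hgr⟩ := Finset.exists_le_of_sum_le hΩne s1
  obtain ⟨U, hU, hUc⟩ := Finset.exists_subset_card_eq hgr
  refine ⟨g, U, hU.trans (Finset.filter_subset _ _), hUc, fun u _ p _ => hΩmem g hg p, ?_,
    fun u hu => ?_⟩
  · rintro p ⟨u, hu, hp⟩ q ⟨u', hu', hq⟩ hpq
    by_contra hne
    refine (Finset.mem_filter.1 (hU hu)).2.2 ((hcoll u g).2 ⟨p, hp, q, ?_, hne, hpq⟩)
    rw [hP, Finset.mem_biUnion]
    exact ⟨u', (Finset.mem_filter.1 (hU hu')).1, hq⟩
  · have h5 := (Finset.mem_filter.1 (hU hu)).2.1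
    rwa [hX] at h5

theorem assemble2 {V : Type} [Fintype V] (k r : ℕ) (G : SimpleGraph (Fin k))
    (H : SimpleGraph V) (A B : Finset V) (hAi : ∀ a ∈ A, ∀ b ∈ A, ¬ H.Adj a b)
    (hAB : Disjoint A B) (U : Finset (Fin k)) (hU : U.card = r)
    (hUi : ∀ a ∈ U, ∀ b ∈ U, ¬ G.Adj a b) (hA : k ≤ A.card + r) (g : Fin k → V)
    (hgA : ∀ u ∈ U, ∀ p, G.Adj u p → g p ∈ A)
    (hgi : Set.InjOn g {p | ∃ u ∈ U, G.Adj u p})
    (hc : ∀ u ∈ U, r ≤ (B.filter fun b => ∀ p, G.Adj u p → ¬ H.Adj b (g p)).card) :
    Emb G H := by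
  obtain ⟨P, hP⟩ : ∃ P : Finset (Fin k), ∀ p, p ∈ P ↔ ∃ u ∈ U, G.Adj u p :=
    ⟨univ.filter (fun p => ∃ u ∈ U, G.Adj u p), fun p => by simp⟩
  have hPU : ∀ p ∈ P, p ∉ U := by
    intro p hp hpU
    obtain ⟨u, hu, hup⟩ := (hP p).1 hp
    exact hUi u hu p hpU hup
  have hgP : ∀ p ∈ P, g p ∈ A := by
    intro p hp
    obtain ⟨u, hu, hup⟩ := (hP p).1 hp
    exact hgA u hu p hup
  have hginj : ∀ p ∈ P, ∀ q ∈ P, g p = g q → p = q := by
    intro p hp q hq h
    exact hgi ((hP p).1 hp) ((hP q).1 hq) h
  have hcard : Fintype.card ↥(Uᶜ \ P) ≤ Fintype.card ↥(A \ P.image g) := by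
    rw [Fintype.card_coe, Fintype.card_coe]
    have h1 : (P.image g).card = P.card :=
      Finset.card_image_of_injOn (fun p hp q hq h => hginj p hp q hq h)
    have h2 : P ⊆ Uᶜ := fun p hp => Finset.mem_compl.2 (hPU p hp)
    have h3 : P.image g ⊆ A := by
      intro x hx
      obtain ⟨p, hp, rfl⟩ := Finset.mem_image.1 hx
      exact hgP p hp
    rw [Finset.card_sdiff_of_subset h2, Finset.card_sdiff_of_subset h3, h1, Finset.card_compl,
      Fintype.card_fin, hU]
    omega
  obtain ⟨e⟩ := Function.Embedding.nonempty_of_card_le hcard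
  obtain ⟨h, hh1, hh2⟩ : ∃ h : Fin k → V, (∀ i (hi : i ∈ Uᶜ \ P), h i = (e ⟨i, hi⟩ : V)) ∧
      ∀ i, i ∉ Uᶜ \ P → h i = g i := by
    refine ⟨fun i => if hi : i ∈ Uᶜ \ P then (e ⟨i, hi⟩ : V) else g i, ?_, ?_⟩
    · intro i hi; simp only [dif_pos hi]
    · intro i hi; simp only [dif_neg hi]
  have hhP : ∀ p ∈ P, h p = g p := by
    intro p hp
    apply hh2
    rw [Finset.mem_sdiff]
    exact fun h0 => h0.2 hp
  have hhA : ∀ i, i ∉ U → h i ∈ A := by
    intro i hi
    by_cases hiP : i ∈ P
    · rw [hhP i hiP]; exact hgP i hiP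
    · have hi' : i ∈ Uᶜ \ P := Finset.mem_sdiff.2 ⟨Finset.mem_compl.2 hi, hiP⟩
      rw [hh1 i hi']
      exact (Finset.mem_sdiff.1 (e ⟨i, hi'⟩).2).1
  have hhinj : ∀ i, i ∉ U → ∀ j, j ∉ U → h i = h j → i = j := by
    intro i hi j hj hij
    by_cases hiP : i ∈ P
    · by_cases hjP : j ∈ P
      · rw [hhP i hiP, hhP j hjP] at hij
        exact hginj i hiP j hjP hij
      · exfalso
        have hj' : j ∈ Uᶜ \ P := Finset.mem_sdiff.2 ⟨Finset.mem_compl.2 hj, hjP⟩
        rw [hhP i hiP, hh1 j hj'] at hij
        apply (Finset.mem_sdiff.1 (e ⟨j, hj'⟩).2).2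
        rw [← hij]
        exact Finset.mem_image_of_mem g hiP
    · have hi' : i ∈ Uᶜ \ P := Finset.mem_sdiff.2 ⟨Finset.mem_compl.2 hi, hiP⟩
      by_cases hjP : j ∈ P
      · exfalso
        rw [hhP j hjP, hh1 i hi'] at hij
        apply (Finset.mem_sdiff.1 (e ⟨i, hi'⟩).2).2
        rw [hij]
        exact Finset.mem_image_of_mem g hjP
      · have hj' : j ∈ Uᶜ \ P := Finset.mem_sdiff.2 ⟨Finset.mem_compl.2 hj, hjP⟩
        rw [hh1 i hi', hh1 j hj'] at hij
        have h0 := e.injective (Subtype.ext hij)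
        exact congrArg Subtype.val h0
  obtain ⟨t, ht⟩ : ∃ t : ↥U → Finset V, ∀ u, t u =
      B.filter fun b => ∀ p, G.Adj (u : Fin k) p → ¬ H.Adj b (g p) := ⟨_, fun _ => rfl⟩
  have hHall : ∀ s : Finset ↥U, s.card ≤ (s.biUnion t).card := by
    intro s
    rcases s.eq_empty_or_nonempty with h0 | ⟨u, hu⟩
    · rw [h0]; simp
    · have h1 : s.card ≤ Fintype.card ↥U := Finset.card_le_univ s
      rw [Fintype.card_coe, hU] at h1
      have h2 : r ≤ (t u).card := by rw [ht]; exact hc u u.2
      exact (h1.trans h2).trans (Finset.card_le_card (Finset.subset_biUnion_of_mem t hu))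
  obtain ⟨ψ, hψi, hψ⟩ := (Finset.all_card_le_biUnion_card_iff_exists_injective t).1 hHall
  have hψB : ∀ u, ψ u ∈ B := fun u => by
    have h0 := hψ u
    rw [ht, Finset.mem_filter] at h0
    exact h0.1
  have hψN : ∀ u : ↥U, ∀ p, G.Adj (u : Fin k) p → ¬ H.Adj (ψ u) (g p) := fun u => by
    have h0 := hψ u
    rw [ht, Finset.mem_filter] at h0
    exact h0.2
  obtain ⟨f, hf1, hf2⟩ : ∃ f : Fin k → V, (∀ i (hi : i ∈ U), f i = ψ ⟨i, hi⟩) ∧
      ∀ i, i ∉ U → f i = h i := by
    refine ⟨fun i => if hi : i ∈ U then ψ ⟨i, hi⟩ else h i, ?_, ?_⟩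
    · intro i hi; simp only [dif_pos hi]
    · intro i hi; simp only [dif_neg hi]
  refine ⟨f, ?_, ?_⟩
  · intro i j hij
    by_cases hi : i ∈ U
    · by_cases hj : j ∈ U
      · rw [hf1 i hi, hf1 j hj] at hij
        exact congrArg Subtype.val (hψi hij)
      · exfalso
        rw [hf1 i hi, hf2 j hj] at hij
        exact Finset.disjoint_left.1 hAB (hij ▸ hhA j hj) (hψB _)
    · by_cases hj : j ∈ U
      · exfalso
        rw [hf1 j hj, hf2 i hi] at hij
        exact Finset.disjoint_left.1 hAB (hhA i hi) (hij ▸ hψB _)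
      · rw [hf2 i hi, hf2 j hj] at hij
        exact hhinj i hi j hj hij
  · intro i j hij
    by_cases hi : i ∈ U
    · by_cases hj : j ∈ U
      · exact absurd hij (hUi i hi j hj)
      · rw [hf1 i hi, hf2 j hj, hhP j ((hP j).2 ⟨i, hi, hij⟩)]
        exact hψN ⟨i, hi⟩ j hij
    · by_cases hj : j ∈ U
      · rw [hf1 j hj, hf2 i hi, hhP i ((hP i).2 ⟨j, hj, hij.symm⟩)]
        exact fun h0 => hψN ⟨j, hj⟩ i hij.symm h0.symm
      · rw [hf2 i hi, hf2 j hj]
        exact hAi _ (hhA i hi) _ (hhA j hj)

theorem bern (d : ℕ) (hd : 2 ≤ d) : (2 * d) ^ (2 * d) ≤ 256 * (2 * d - 3) ^ (2 * d) := by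
  have hd2 : (2 : ℝ) ≤ d := by exact_mod_cast hd
  have hx : (0 : ℝ) < 2 * d := by linarith
  have h1 : (1 / 4 : ℝ) ≤ (1 + (-(3 / (2 * d)))) ^ ((d : ℝ) / 2) := by
    have h2 := one_add_mul_self_le_rpow_one_add (s := -(3 / (2 * (d : ℝ)))) (by
      rw [neg_le_neg_iff, div_le_one hx]; linarith) (p := (d : ℝ) / 2) (by linarith)
    refine le_trans (le_of_eq ?_) h2
    field_simp
    norm_num
  have hbase : (0 : ℝ) ≤ 1 + (-(3 / (2 * d))) := by
    have : 3 / (2 * (d : ℝ)) ≤ 1 := by rw [div_le_one hx]; linarith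
    linarith
  have h3 : (1 / 256 : ℝ) ≤ (1 + (-(3 / (2 * d)))) ^ (2 * d) := by
    have h4 : ((1 + (-(3 / (2 * (d : ℝ))))) ^ ((d : ℝ) / 2)) ^ (4 : ℕ) =
        (1 + (-(3 / (2 * (d : ℝ))))) ^ (2 * d) := by
      rw [← Real.rpow_natCast, ← Real.rpow_mul hbase, ← Real.rpow_natCast]
      congr 1
      push_cast
      ring
    rw [← h4]
    calc (1 / 256 : ℝ) = (1 / 4) ^ 4 := by norm_num
      _ ≤ _ := by gcongr
  have h5 : ((2 * d - 3 : ℕ) : ℝ) = (2 * d) * (1 + (-(3 / (2 * d)))) := by
    rw [Nat.cast_sub (by omega)]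
    push_cast
    field_simp
    ring
  have h6 : ((2 * d : ℕ) : ℝ) ^ (2 * d) ≤ 256 * ((2 * d - 3 : ℕ) : ℝ) ^ (2 * d) := by
    rw [h5, mul_pow]
    push_cast
    have h7 : (0 : ℝ) < (2 * d) ^ (2 * d) := by positivity
    nlinarith
  exact_mod_cast h6

theorem core3 (d k : ℕ) (hd : 2 ≤ d) (G : SimpleGraph (Fin k)) (hG : Deg G d) {V : Type}
    [Fintype V] (H : SimpleGraph V) (h3 : H.CliqueFree 3)
    (hN : 8388608 * d * ((d + 1) * k) ≤ 8388608 * d * Fintype.card V + k) :
    Emb G H := by
  rcases Nat.eq_zero_or_pos k with hk0 | hkpos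
  · subst hk0
    exact ⟨fun i => i.elim0, fun i => i.elim0, fun i => i.elim0⟩
  set D : ℕ := (univ : Finset V).sup (fun v => (univ.filter fun w => H.Adj v w).card) with hD
  have hdeg : ∀ v : V, (univ.filter fun w => H.Adj v w).card ≤ D := fun v =>
    Finset.le_sup (f := fun v => (univ.filter fun w => H.Adj v w).card) (mem_univ v)
  by_cases hcase : k + d * D ≤ Fintype.card V
  · exact greedy k d D G hG H hdeg hcase
  push Not at hcase
  obtain ⟨Q, hQ⟩ : ∃ Q : ℕ, Q = 8388608 * d := ⟨_, rfl⟩
  have hQ2 : 2 ≤ Q := by omega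
  rw [← hQ] at hN
  have h2N : 5 * k ≤ 2 * Fintype.card V := by
    by_contra hcon
    push Not at hcon
    have h1 : Q * (2 * Fintype.card V + 1) ≤ Q * (5 * k) := Nat.mul_le_mul_left Q hcon
    have h2 : Q * (6 * k) ≤ Q * (2 * ((d + 1) * k)) := by
      apply Nat.mul_le_mul_left
      nlinarith
    have h3 : 2 * k ≤ Q * k := Nat.mul_le_mul_right k hQ2
    nlinarith
  have hVpos : 0 < Fintype.card V := by omega
  have : Nonempty V := Fintype.card_pos_iff.mp hVpos
  obtain ⟨v, -, hv⟩ := Finset.exists_mem_eq_sup (univ : Finset V) univ_nonempty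
    (fun v => (univ.filter fun w => H.Adj v w).card)
  rw [← hD] at hv
  set A : Finset V := univ.filter fun w => H.Adj v w with hA
  have hAcard : A.card = D := hv.symm
  have hAi : ∀ a ∈ A, ∀ b ∈ A, ¬ H.Adj a b := by
    intro a ha b hb hab
    have ha' : H.Adj v a := (mem_filter.mp ha).2
    have hb' : H.Adj v b := (mem_filter.mp hb).2
    exact h3 {v, a, b} (SimpleGraph.is3Clique_triple_iff.mpr ⟨ha', hb', hab⟩)
  by_cases hDk : k ≤ D
  · exact assemble2 k 0 G H A ∅ hAi (disjoint_empty_right A) ∅ card_empty (by simp) (by omega)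
      (fun _ => Classical.arbitrary V) (by simp) (by simp) (by simp)
  push Not at hDk
  obtain ⟨r, hr⟩ : ∃ r, k = D + r := ⟨k - D, by omega⟩
  have hr1 : 1 ≤ r := by omega
  have hdr : Q * (d * r) ≤ k := by
    have h1 : (d + 1) * k = d * D + d * r + k := by rw [hr]; ring
    rw [h1] at hN
    have h2 : Q * Fintype.card V ≤ Q * (k + d * D) := Nat.mul_le_mul_left Q hcase.le
    nlinarith
  have hkey : 8388608 * (d * d * r) ≤ k := by
    have : Q * (d * r) = 8388608 * (d * d * r) := by rw [hQ]; ring
    omega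
  have hd2 : 4 ≤ d * d := Nat.mul_le_mul hd hd
  have hsmall : 33554432 * r ≤ k := by
    have := Nat.mul_le_mul_right r hd2
    omega
  set B0 : Finset V := univ \ A with hB0
  have hB0card : B0.card = Fintype.card V - D := by
    rw [hB0, card_sdiff_of_subset (subset_univ A), card_univ, hAcard]
  have hB0k : (2 * d - 1) * k ≤ 2 * B0.card := by
    rw [hB0card]
    obtain ⟨e, he⟩ : ∃ e, d = e + 1 := ⟨d - 1, by omega⟩
    have hDV : D ≤ Fintype.card V := by
      rw [← hAcard]; exact Finset.card_le_univ A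
    have h12 : (2 * d + 1) * k ≤ 2 * Fintype.card V := by
      by_contra hcon
      push Not at hcon
      have h1 : Q * (2 * Fintype.card V + 1) ≤ Q * ((2 * d + 1) * k) := Nat.mul_le_mul_left Q hcon
      have h3 : 2 * k ≤ Q * k := Nat.mul_le_mul_right k hQ2
      nlinarith
    have h13 : (2 * d - 1) * k + 2 * k = (2 * d + 1) * k := by
      rw [← add_mul]; congr 1; omega
    omega
  set S : V → Finset V := fun b => A.filter fun a => ¬ H.Adj b a with hS
  set B : Finset V := B0.filter fun b => (2 * d - 3) * A.card ≤ 2 * d * (S b).card with hB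
  set Z : Finset V := B0.filter fun b => ¬ (2 * d - 3) * A.card ≤ 2 * d * (S b).card with hZ
  have hBZ : B.card + Z.card = B0.card := by
    rw [hB, hZ]; exact Finset.card_filter_add_card_filter_not _
  have hAk : k ≤ 2 * A.card := by rw [hAcard]; omega
  have hApos : 0 < A.card := by omega
  have hZk : 3 * Z.card ≤ 2 * d * k := by
    have h1 : ∑ b ∈ Z, (A.filter fun a => H.Adj b a).card ≤ A.card * k := by
      have h2 : ∑ b ∈ Z, (A.filter fun a => H.Adj b a).card =
          ∑ a ∈ A, (Z.filter fun b => H.Adj b a).card :=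
        Finset.sum_card_bipartiteAbove_eq_sum_card_bipartiteBelow _
      rw [h2]
      calc ∑ a ∈ A, (Z.filter fun b => H.Adj b a).card ≤ ∑ a ∈ A, k := by
            apply Finset.sum_le_sum
            intro a _
            have h4 : (Z.filter fun b => H.Adj b a).card ≤ (univ.filter fun w => H.Adj a w).card := by
              apply Finset.card_le_card
              intro b hb
              rw [mem_filter] at hb ⊢
              exact ⟨mem_univ _, hb.2.symm⟩
            have h5 := hdeg a
            omega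
        _ = A.card * k := by rw [Finset.sum_const, smul_eq_mul]
    have h6 : Z.card * (3 * A.card) ≤ 2 * d * ∑ b ∈ Z, (A.filter fun a => H.Adj b a).card := by
      rw [Finset.mul_sum, ← smul_eq_mul, ← Finset.sum_const]
      apply Finset.sum_le_sum
      intro b hb
      have hb2 := (mem_filter.mp hb).2
      have h7 : (A.filter fun a => H.Adj b a).card + (S b).card = A.card :=
        Finset.card_filter_add_card_filter_not _
      obtain ⟨e, he⟩ : ∃ e, 2 * d = e + 3 := ⟨2 * d - 3, by omega⟩
      rw [he, show e + 3 - 3 = e by omega] at hb2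
      rw [he]
      have h14 : (e + 3) * (A.filter fun a => H.Adj b a).card + (e + 3) * (S b).card =
          (e + 3) * A.card := by rw [← mul_add, h7]
      have h15 : (e + 3) * A.card = e * A.card + 3 * A.card := by ring
      omega
    have h8 : A.card * (3 * Z.card) ≤ A.card * (2 * d * k) := by
      calc A.card * (3 * Z.card) = Z.card * (3 * A.card) := by ring
        _ ≤ 2 * d * ∑ b ∈ Z, (A.filter fun a => H.Adj b a).card := h6
        _ ≤ 2 * d * (A.card * k) := Nat.mul_le_mul_left _ h1
        _ = A.card * (2 * d * k) := by ring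
    exact Nat.le_of_mul_le_mul_left h8 hApos
  have hBk : k ≤ 6 * B.card := by
    have h16 : 3 * ((2 * d - 1) * k) = 2 * (2 * d * k) + (2 * d - 3) * k := by
      obtain ⟨e, he⟩ : ∃ e, 2 * d = e + 3 := ⟨2 * d - 3, by omega⟩
      rw [he, show e + 3 - 3 = e by omega, show e + 3 - 1 = e + 2 by omega]
      ring
    have h17 : 1 * k ≤ (2 * d - 3) * k := Nat.mul_le_mul_right k (by omega)
    omega
  obtain ⟨T, hTc, hTi, hTd⟩ := low k d (4 * 256 * r) G hG (by
    have h9 : (2 * d + 1) * (2 * d + 1) ≤ 9 * (d * d) := by nlinarith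
    calc 4 * 256 * r * ((2 * d + 1) * (2 * d + 1)) ≤ 4 * 256 * r * (9 * (d * d)) :=
          Nat.mul_le_mul_left _ h9
      _ = 9216 * (d * d * r) := by ring
      _ ≤ k := by omega)
  have hB2 : 2 * 256 * r ≤ B.card := by omega
  have hA2 : 16 * (2 * d) * (2 * d) * 256 * 256 * r ≤ A.card := by
    rw [show 16 * (2 * d) * (2 * d) * 256 * 256 * r = 4194304 * (d * d * r) by ring]
    omega
  have hSM : ∀ b ∈ B, S b ⊆ A ∧ A.card ^ (2 * d) ≤ 256 * (S b).card ^ (2 * d) := by
    intro b hb
    refine ⟨Finset.filter_subset _ _, ?_⟩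
    have hb2 := (mem_filter.mp hb).2
    have h20 := Nat.pow_le_pow_left hb2 (2 * d)
    rw [mul_pow, mul_pow] at h20
    have h21 := bern d hd
    have h22 : (2 * d) ^ (2 * d) * A.card ^ (2 * d) ≤
        (2 * d) ^ (2 * d) * (256 * (S b).card ^ (2 * d)) := by
      calc (2 * d) ^ (2 * d) * A.card ^ (2 * d)
          ≤ 256 * (2 * d - 3) ^ (2 * d) * A.card ^ (2 * d) := Nat.mul_le_mul_right _ h21
        _ = 256 * ((2 * d - 3) ^ (2 * d) * A.card ^ (2 * d)) := by ring
        _ ≤ 256 * ((2 * d) ^ (2 * d) * (S b).card ^ (2 * d)) := Nat.mul_le_mul_left _ h20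
        _ = (2 * d) ^ (2 * d) * (256 * (S b).card ^ (2 * d)) := by ring
    exact Nat.le_of_mul_le_mul_left h22 (by positivity)
  obtain ⟨g, U, hUT, hUc, hgA, hgi, hcand⟩ := rand T (fun u => univ.filter fun j => G.Adj u j)
    (2 * d) 256 (by norm_num) hTd A B S hSM r hr1 (Finset.card_pos.mp hApos) hTc hB2 hA2
  refine assemble2 k r G H A B hAi ?_ U hUc (fun a ha b hb => hTi a (hUT ha) b (hUT hb))
    (by omega) g ?_ ?_ ?_
  · rw [Finset.disjoint_left]
    intro a ha haB
    have h11 := (mem_filter.mp haB).1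
    rw [hB0, mem_sdiff] at h11
    exact h11.2 ha
  · intro u hu p hp
    exact hgA u hu p (by simpa using hp)
  · intro p hp q hq hpq
    apply hgi _ _ hpq
    · obtain ⟨u, hu, hup⟩ := hp
      exact ⟨u, hu, by simpa using hup⟩
    · obtain ⟨u, hu, hup⟩ := hq
      exact ⟨u, hu, by simpa using hup⟩
  · intro u hu
    have hc := hcand u hu
    refine hc.trans ?_
    apply Finset.card_le_card
    intro b hb
    simp only [Finset.mem_filter, Finset.mem_univ, true_and] at hb ⊢
    refine ⟨hb.1, fun p hp => ?_⟩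
    have h30 := hb.2 p hp
    rw [hS] at h30
    exact (Finset.mem_filter.mp h30).2

/-- Let `d ≥ 2` and let `G` have `k` vertices that can be ordered such that every vertex has at
most `d` neighbours before it, and let `Q = 8388608 d`. Then `R(3, G) ≤ N` for all `N` with
`(d + 1) k - k / Q ≤ N`, and `R(3, G) ≤ k + m` if `G` has `m ≥ (d - 1 / Q) k` edges. -/
theorem result (d : ℕ) (hd : 2 ≤ d) (V : Type) [Fintype V] (G : SimpleGraph V)
    (hG : ∃ e : V ≃ Fin (Fintype.card V), ∀ v, {w | G.Adj v w ∧ e w < e v}.ncard ≤ d) :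
    (∀ (W : Type) [Fintype W] (H : SimpleGraph W),
      ((d : ℝ) + 1 - 1 / (8388608 * d)) * Fintype.card V ≤ Fintype.card W →
        ¬ H.CliqueFree 3 ∨ ∃ f : G →g Hᶜ, Function.Injective f) ∧
    (((d : ℝ) - 1 / (8388608 * d)) * Fintype.card V ≤ G.edgeSet.ncard →
      ∀ H : SimpleGraph (Fin (Fintype.card V + G.edgeSet.ncard)),
        ¬ H.CliqueFree 3 ∨ ∃ f : G →g Hᶜ, Function.Injective f) := by
  have key : ∀ (W : Type) [Fintype W] (H : SimpleGraph W),
      ((d : ℝ) + 1 - 1 / (8388608 * d)) * Fintype.card V ≤ Fintype.card W →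
        ¬ H.CliqueFree 3 ∨ ∃ f : G →g Hᶜ, Function.Injective f := by
    intro W _ H hN
    by_cases h3 : H.CliqueFree 3
    · right
      obtain ⟨e, he⟩ := hG
      have hD : Deg (G.comap e.symm) d := by
        intro i
        refine le_trans ?_ (he (e.symm i))
        rw [Set.ncard_eq_toFinset_card']
        apply Finset.card_le_card_of_injOn (fun j => e.symm j)
        · intro j hj
          simp only [Finset.coe_filter, Finset.mem_univ, true_and, Set.mem_ofPred_eq,
            SimpleGraph.comap_adj] at hj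
          simp only [Finset.mem_coe, Set.mem_toFinset, Set.mem_ofPred_eq, Equiv.apply_symm_apply]
          exact hj
        · exact e.symm.injective.injOn
      have hQ : (0 : ℝ) < 8388608 * d := by positivity
      have hN2 : 8388608 * d * ((d + 1) * Fintype.card V) ≤
          8388608 * d * Fintype.card W + Fintype.card V := by
        have h1 : (8388608 * (d : ℝ)) *
            (((d : ℝ) + 1 - 1 / (8388608 * d)) * Fintype.card V) ≤
            (8388608 * (d : ℝ)) * Fintype.card W := mul_le_mul_of_nonneg_left hN hQ.le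
        have h2 : (8388608 * (d : ℝ)) *
            (((d : ℝ) + 1 - 1 / (8388608 * d)) * Fintype.card V) =
            (8388608 * (d : ℝ)) * ((d + 1) * Fintype.card V) - Fintype.card V := by
          field_simp
        rw [h2] at h1
        have h3' : (8388608 * (d : ℝ)) * ((d + 1) * Fintype.card V) ≤
            (8388608 * (d : ℝ)) * Fintype.card W + Fintype.card V := by linarith
        exact_mod_cast h3'
      obtain ⟨f, hf, hfa⟩ := core3 d (Fintype.card V) hd (G.comap e.symm) hD H h3 hN2
      refine ⟨⟨fun v => f (e v), ?_⟩, fun a b hab => e.injective (hf hab)⟩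
      intro a b hab
      rw [SimpleGraph.compl_adj]
      refine ⟨fun h => hab.ne (e.injective (hf h)), hfa _ _ ?_⟩
      simpa [SimpleGraph.comap_adj] using hab
    · left; exact h3
  refine ⟨key, fun hm H => key _ H ?_⟩
  rw [Fintype.card_fin]
  push_cast
  linarith

end Pool.Agent.Results.MP_c6effb_co.DegenerateSharp
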